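import Pool.Agent.THR72.Top
import Pool.Agent.THR72.Upper
import Pool.Agent.THR72.PercPT

/-!
# Learners that predict with thresholds of polynomials of degree `d`

The best competitive ratio, against the disjunctions of `r` variables, of the online learners that
predict with thresholds of polynomials of degree at most `d` has the order `r / d ^ 2`.
-/

namespace Pool.Agent.Results.MP_eeb244_lc.DegreeThresholds

open Pool.Agent.THR72
open Pool.Agent.OnlineDisj (Learner)

/-- **The theorem.** Part 1: the lower bounds for the degree `d`, in terms of the number of relevant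
variables and in terms of `n`. Part 2: the upper bound, by a learner which runs in polynomial time.
Part 3: linear thresholds. -/
theorem result :
    -- 1. degree `d`: the ratio is at least `k / (57 d ^ 2)` and `√n / (30 d ^ (3 / 2))`
    (∀ n d : ℕ, 1 ≤ d → ∀ L : List (Ex n) → MvPolynomial (Fin n) ℝ,
      (∀ H, (L H).totalDegree ≤ d) →
      (∀ k T : ℕ, 60 * d ^ 2 ≤ k → k ^ 2 ≤ 4 * d * n →
        ∃ S : List (Ex n), T ≤ mistakes L S ∧ rDisj S = k ∧ k * mDisj S ≤ 57 * d ^ 2 * T) ∧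
      ∀ c b : ℝ, c < Real.sqrt n / (30 * d * Real.sqrt d) →
        ∃ S : List (Ex n), c * mDisj S + b < mistakes L S) ∧
    -- 2. degree `d`: ratio `4 (1 + r / d ^ 2)` in polynomial time
    (∀ d : ℕ, 1 ≤ d → ∃ (σ : Type) (_ : N487b59b3 σ) (P : Learner σ), P.PolyTime ∧
      ∃ p : Polynomial ℕ, ∀ n : ℕ, ∃ L : List (Ex n) → MvPolynomial (Fin n) ℝ,
        (∀ H, (L H).totalDegree ≤ d) ∧
        (∀ (H : List (Ex n)) (x : Fin n → Bool),
          P.predict (P.run P.start H, List.ofFn x) = thr (L H) x) ∧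
        ∀ S : List (Ex n), P.mistakes S = mistakes L S ∧
          (mistakes L S : ℝ) ≤ 4 * (1 + rDisj S / (d : ℝ) ^ 2) * mDisj S + p.eval n) ∧
    -- 3. linear thresholds: ratio at least `k` and `⌊√n⌋`, and ratio `42 √n`
    (∀ n : ℕ, ∀ L : List (Ex n) → MvPolynomial (Fin n) ℝ, (∀ H, (L H).totalDegree ≤ 1) →
      (∀ k T : ℕ, 1 ≤ k → k ^ 2 ≤ n →
        ∃ S : List (Ex n), T ≤ mistakes L S ∧ rDisj S = k ∧ k * mDisj S ≤ T) ∧
      ∀ c b : ℝ, c < Nat.sqrt n → ∃ S : List (Ex n), c * mDisj S + b < mistakes L S) ∧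
    (∀ n : ℕ, 1 ≤ n → ∃ L : List (Ex n) → MvPolynomial (Fin n) ℝ, (∀ H, (L H).totalDegree ≤ 1) ∧
      ∀ S : List (Ex n), (mistakes L S : ℝ) ≤ 42 * Real.sqrt n * mDisj S + 60 * n ^ 2) :=
  ⟨fun _ _ hd L hL => ⟨fun _ T hk1 hk2 => degree_k hd hk1 hk2 L hL T,
      fun c b hc => degree_n hd L hL c b hc⟩,
    fun d hd => ⟨MemP, inferInstance, learnerP d, polytime_perceptron hd⟩,
    fun _ L hL => ⟨fun _ T hk hkn => linear_k hk hkn L hL T, fun c b hc => linear_n L hL c b hc⟩,
    fun n hn => upper n hn⟩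

end Pool.Agent.Results.MP_eeb244_lc.DegreeThresholds
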