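import Pool.Agent.THR72.FeatQ

/-!
# Learners that predict with thresholds in a fixed space of features

A learner maps the examples in `{0,1}^n` by a function `φ`, fixed in advance, to a real inner product
space `E` of any kind, and after the labelled examples `H` it predicts `true` on `x` if and only if
`⟨w H, φ x⟩ > 0`. Nothing is assumed on how the vector `w H` is found.
-/

namespace Pool.Agent.Results.MP_eeb244_lc.FeatureSpaces

open Pool.Agent.THR72

/-- **The theorem.** The features lie in a space of dimension at most `s`, or they have norm at most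
one, the positive values of the threshold functions are at least one, and the weights have norm at
most `s` while the learner has made at most `2 * b` mistakes (`Small s b φ w`).

(1) For `a < 1/2` the ratio `n ^ a` against the best disjunction is impossible with
`s = 2 ^ (n ^ δ)`, for some `δ > 0`.
(2) A constant ratio is impossible with `s = 2 ^ (c * n ^ (1/3))`.
(3) The trade-off between `s = 2 ^ d`, the ratio `q` and the number `k` of relevant variables. -/
theorem result :
    (∀ a : ℝ, 0 ≤ a → a < 1 / 2 → ∃ δ : ℝ, 0 < δ ∧ ∃ n₀ : ℕ, ∀ n : ℕ, n₀ ≤ n →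
      ∀ (E : Type) [NormedAddCommGroup E] [InnerProductSpace ℝ E] (φ : (Fin n → Bool) → E)
        (w : List (Ex n) → E) (b : ℝ), 0 ≤ b → Small (2 ^ (n : ℝ) ^ δ) b φ w →
        ∃ S : List (Ex n), (n : ℝ) ^ a * mDisj S + b < kErr φ w S) ∧
    (∀ q : ℕ, ∃ c : ℝ, 0 < c ∧ ∃ n₀ : ℕ, ∀ n : ℕ, n₀ ≤ n →
      ∀ (E : Type) [NormedAddCommGroup E] [InnerProductSpace ℝ E] (φ : (Fin n → Bool) → E)
        (w : List (Ex n) → E) (b : ℝ), 0 ≤ b → Small (2 ^ (c * (n : ℝ) ^ (1 / 3 : ℝ))) b φ w →
        ∃ S : List (Ex n), q * mDisj S + b < kErr φ w S) ∧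
    ∃ C : ℕ, 1 ≤ C ∧ ∀ n k q d : ℕ, 1 ≤ q → 1 ≤ d → q ≤ 2 ^ d →
      C * (q * d ^ 4) ≤ k → C * (q ^ 2 * d ^ 7 + k) ≤ n →
      ∀ (E : Type) [NormedAddCommGroup E] [InnerProductSpace ℝ E] (φ : (Fin n → Bool) → E)
        (w : List (Ex n) → E) (b : ℝ), 0 ≤ b → Small (2 ^ d) b φ w →
        ∃ S : List (Ex n), rDisj S = k ∧ q * mDisj S + b < kErr φ w S :=
  ⟨fun a ha0 ha => FS.small_exp a ha0 ha, fun q => FS.small_const q, FS.trade_r⟩

end Pool.Agent.Results.MP_eeb244_lc.FeatureSpaces
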