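import Pool.Agent.THR72.Top

/-!
# Learners that predict with thresholds of combinations of few features
-/

namespace Pool.Agent.Results.MP_eeb244_lc.FeatureThresholds

open Pool.Agent.THR72

/-- **The theorem.** A learner predicts with thresholds of combinations of at most `N` features which
are fixed in advance, products of a conjunction of literals and a parity of variables, plus
polynomials with at most `N` monomials, which may change from trial to trial. Its ratio against the
disjunctions of `k` variables is at least of the order `k / (log N) ^ 2`, and at least of the order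
`√n / (log N) ^ (3 / 2)` in terms of `n`. -/
theorem result :
    ∀ (n N : ℕ) (L : List (Ex n) → MvPolynomial (Fin n) ℝ), FewFeatures N L →
      (∀ k T : ℕ, 1920 * (Nat.log 2 N + 1) ^ 2 ≤ k → k ^ 2 ≤ 6 * (Nat.log 2 N + 1) * n →
        ∃ S : List (Ex n), T ≤ mistakes L S ∧ rDisj S = k ∧
          k * mDisj S ≤ 1824 * (Nat.log 2 N + 1) ^ 2 * T) ∧
      ∀ c b : ℝ,
        c < Real.sqrt n / (680 * ((Nat.log 2 N : ℝ) + 1) * Real.sqrt ((Nat.log 2 N : ℝ) + 1)) →
        ∃ S : List (Ex n), c * mDisj S + b < mistakes L S :=
  fun _ _ L hL => ⟨fun _ T hk1 hk2 => features_k L hL hk1 hk2 T,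
    fun c b hc => features_n L hL c b hc⟩

end Pool.Agent.Results.MP_eeb244_lc.FeatureThresholds
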