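import Pool.Agent.RDisj.FIN
import Pool.Agent.RDisj.LPT
import Pool.Agent.RDisj.PTU
import Pool.Agent.RDisj.SEM
import Pool.Agent.RDisj.UPD
import Pool.Agent.RDisj.LEN
import Pool.Agent.RDisj.WGT
import Pool.Agent.RDisj.NEG
import Pool.Agent.RDisj.BRG
import Pool.Agent.RDisj.SRV
import Pool.Agent.RDisj.DCT
import Pool.Agent.RDisj.ASG
import Pool.Agent.RDisj.ABL
import Pool.Agent.RDisj.CHS
import Pool.Agent.RDisj.MOM
import Pool.Agent.RDisj.PHB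
import Pool.Agent.RDisj.PHS
import Pool.Agent.RDisj.MEMB
import Pool.Agent.RDisj.PAR

/-!
# Polynomial-time online learners with competitive ratio `r ^ α` and `n ^ α` against the best
disjunction
-/

set_option autoImplicit false

namespace Pool.Agent.Results.MP_eeb244_lc.RatioPower

open Pool.Agent.OnlineDisj

/-- The bound for the learner of ratio `O(√n)`. -/
theorem sqrt_bound {n : ℕ} (hn : 1 ≤ n) (S : Seq n) :
    (OnlineDisj.learner.mistakes S : ℝ) ≤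
      42 * Real.sqrt n * mDisj S + (2 * n * (12 * n + 17) : ℕ) := by
  obtain ⟨h, hh, -, -⟩ := RDisj.FIN.exists_opt S
  have h1 := mistakes_le hn h S
  rw [hh] at h1
  have h2 : phase n ≤ 2 * n * (12 * n + 17) := by
    unfold phase
    exact Nat.mul_le_mul_left _ (by have := rt_le n; omega)
  have h3 : (rt n : ℝ) ≤ Real.sqrt n + 1 := by
    have h4 : ((rt n - 1 : ℕ) : ℝ) ≤ Real.sqrt n := by
      apply Real.le_sqrt_of_sq_le
      have := rt_pred_sq n hn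
      rw [pow_two]
      exact_mod_cast this.le
    have h5 : (rt n : ℝ) ≤ ((rt n - 1 : ℕ) : ℝ) + 1 := by
      have : rt n ≤ (rt n - 1) + 1 := by omega
      exact_mod_cast this
    linarith
  have h6 : (1 : ℝ) ≤ Real.sqrt n := by
    rw [Real.one_le_sqrt]
    exact_mod_cast hn
  have h7 : (12 * (rt n : ℝ) + 18) * mDisj S ≤ 42 * Real.sqrt n * mDisj S := by
    apply mul_le_mul_of_nonneg_right _ (Nat.cast_nonneg _)
    linarith
  have h8 : (OnlineDisj.learner.mistakes S : ℝ) ≤ (12 * (rt n : ℝ) + 18) * mDisj S +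
      (2 * n * (12 * n + 17) : ℕ) := by
    have h9 : OnlineDisj.learner.mistakes S ≤
        (12 * rt n + 18) * mDisj S + 2 * n * (12 * n + 17) := by omega
    exact_mod_cast h9
  linarith

/-- The trade-off for a fixed `K`. -/
theorem tradeoff (K : ℕ) (hK : 1 ≤ K) :
    ∃ (σ : Type) (_ : N487b59b3 σ) (L : Learner σ), L.PolyTime ∧
      ∃ (C : ℝ) (p : Polynomial ℕ), 0 ≤ C ∧ ∀ n : ℕ, 1 ≤ n → ∀ S : Seq n,
        (L.mistakes S : ℝ) ≤ C * min (min (max 1 (rDisj S : ℝ)) (Real.sqrt n))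
          ((max 1 (rDisj S : ℝ) ^ K * (n : ℝ) ^ ((1 : ℝ) / K) * (1 + Real.log n)) ^
            ((1 : ℝ) / (K + 1))) * mDisj S + (p.eval n : ℕ) := by
  obtain ⟨L, hL, C, p, hC, h⟩ := RDisj.FIN.main_K (RDisj.t_PTU RDisj.t_LPT)
    (RDisj.t_PHB (RDisj.t_NEG RDisj.t_LEN RDisj.t_WGT) (RDisj.t_BRG RDisj.t_WGT)
      (RDisj.t_MOM RDisj.t_SRV RDisj.t_DCT RDisj.t_ASG RDisj.t_ABL RDisj.t_CHS))
    (RDisj.t_PHS (RDisj.t_UPD RDisj.t_SEM))
    (RDisj.t_MEMB (RDisj.t_UPD RDisj.t_SEM) RDisj.t_WGT RDisj.t_LEN) RDisj.t_PAR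
    (RDisj.t_NEG RDisj.t_LEN RDisj.t_WGT) (RDisj.t_BRG RDisj.t_WGT) RDisj.t_ASG K hK
  refine ⟨Bool × RDisj.Mem × OnlineDisj.Mem, inferInstance,
    RDisj.comb L OnlineDisj.learner, RDisj.COMB.polyTime hL OnlineDisj.learner_polyTime,
    2 * C + 84, 2 * p + 2 * (2 * Polynomial.X * (12 * Polynomial.X + 17)) + 1, by positivity, ?_⟩
  intro n hn S
  obtain ⟨h1, h2⟩ := h n hn S
  obtain ⟨h3, h4⟩ := RDisj.COMB.mistakes_le L OnlineDisj.learner S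
  have h5 := sqrt_bound hn S
  have e1 : ((RDisj.comb L OnlineDisj.learner).mistakes S : ℝ) ≤ 2 * (L.mistakes S : ℝ) := by
    exact_mod_cast h3
  have e2 : ((RDisj.comb L OnlineDisj.learner).mistakes S : ℝ) ≤
      2 * (OnlineDisj.learner.mistakes S : ℝ) + 1 := by
    exact_mod_cast h4
  have hp : (((2 * p + 2 * (2 * Polynomial.X * (12 * Polynomial.X + 17)) + 1 :
      Polynomial ℕ).eval n : ℕ) : ℝ) =
      2 * (p.eval n : ℕ) + 2 * (2 * n * (12 * n + 17) : ℕ) + 1 := by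
    simp only [Polynomial.eval_add, Polynomial.eval_mul, Polynomial.eval_X,
      Polynomial.eval_ofNat, Polynomial.eval_one]
    push_cast
    ring
  rw [hp]
  have hm : (0 : ℝ) ≤ mDisj S := Nat.cast_nonneg _
  have hp1 : (0 : ℝ) ≤ (p.eval n : ℕ) := Nat.cast_nonneg _
  have hp2 : (0 : ℝ) ≤ (2 * n * (12 * n + 17) : ℕ) := Nat.cast_nonneg _
  have hr0 : (0 : ℝ) ≤ max 1 (rDisj S : ℝ) := le_trans zero_le_one (le_max_left _ _)
  have hs0 : (0 : ℝ) ≤ Real.sqrt n := Real.sqrt_nonneg _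
  have hn0 : (1 : ℝ) ≤ n := by exact_mod_cast hn
  have hW0 : 0 ≤ (max 1 (rDisj S : ℝ) ^ K * (n : ℝ) ^ ((1 : ℝ) / K) * (1 + Real.log n)) ^
      ((1 : ℝ) / (K + 1)) := by
    apply Real.rpow_nonneg
    have := Real.log_nonneg hn0
    positivity
  unfold RDisj.FIN.Zq at h1
  rcases min_choice (min (max 1 (rDisj S : ℝ)) (Real.sqrt n))
    ((max 1 (rDisj S : ℝ) ^ K * (n : ℝ) ^ ((1 : ℝ) / K) * (1 + Real.log n)) ^
      ((1 : ℝ) / (K + 1))) with hc | hc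
  · rw [hc]
    rcases min_choice (max 1 (rDisj S : ℝ)) (Real.sqrt n) with hd | hd
    · rw [hd]
      have e3 : 0 ≤ max 1 (rDisj S : ℝ) * mDisj S := mul_nonneg hr0 hm
      have e4 : (2 * C + 84) * max 1 (rDisj S : ℝ) * mDisj S =
        2 * (C * max 1 (rDisj S : ℝ) * mDisj S) + 84 * (max 1 (rDisj S : ℝ) * mDisj S) := by ring
      rw [e4]
      linarith
    · rw [hd]
      have e3 : 0 ≤ C * (Real.sqrt n * mDisj S) := mul_nonneg hC (mul_nonneg hs0 hm)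
      have e4 : (2 * C + 84) * Real.sqrt n * mDisj S =
        2 * (42 * Real.sqrt n * mDisj S) + 2 * (C * (Real.sqrt n * mDisj S)) := by ring
      rw [e4]
      linarith
  · rw [hc]
    set W := (max 1 (rDisj S : ℝ) ^ K * (n : ℝ) ^ ((1 : ℝ) / K) * (1 + Real.log n)) ^
      ((1 : ℝ) / (K + 1)) with hW
    have e3 : 0 ≤ W * mDisj S := mul_nonneg hW0 hm
    have e4 : (2 * C + 84) * W * mDisj S = 2 * (C * W * mDisj S) + 84 * (W * mDisj S) := by ring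
    rw [e4]
    linarith

theorem big (c δ : ℝ) (hc : 0 ≤ c) (hδ : 0 < δ) : ∃ n₀ : ℕ, ∀ n : ℕ, n₀ ≤ n →
    1 ≤ n ∧ c ≤ (n : ℝ) ^ δ := by
  obtain ⟨N, hN⟩ := exists_nat_gt (c ^ (1 / δ))
  refine ⟨max 1 N, fun n hn => ?_⟩
  have hn1 : 1 ≤ n := le_trans (le_max_left _ _) hn
  have hnN : N ≤ n := le_trans (le_max_right _ _) hn
  refine ⟨hn1, ?_⟩
  have h4 : c ^ (1 / δ) ≤ n := by
    have : (N : ℝ) ≤ n := by exact_mod_cast hnN
    linarith
  have h5 := Real.rpow_le_rpow (by positivity) h4 hδ.le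
  rw [← Real.rpow_mul hc, one_div_mul_cancel hδ.ne', Real.rpow_one] at h5
  exact h5

/-- Powers of `n` and of `r(S)`. -/
theorem power (ε : ℝ) (hε : 0 < ε) (hε1 : ε ≤ 1) :
    ∃ (σ : Type) (_ : N487b59b3 σ) (L : Learner σ), L.PolyTime ∧
      ∃ (C : ℝ) (p : Polynomial ℕ),
        (∀ n : ℕ, 1 ≤ n → ∀ S : Seq n, (L.mistakes S : ℝ) ≤
          C * min (max 1 (rDisj S : ℝ)) (Real.sqrt n) * mDisj S + (p.eval n : ℕ)) ∧
        (∀ n : ℕ, 1 ≤ n → ∀ S : Seq n, (n : ℝ) ^ ε ≤ rDisj S →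
          (L.mistakes S : ℝ) ≤ C * (rDisj S : ℝ) ^ (1 - ε / 16) * mDisj S + (p.eval n : ℕ)) ∧
        (∃ n₀ : ℕ, ∀ n : ℕ, n₀ ≤ n → ∀ S : Seq n, (n : ℝ) ^ ε ≤ rDisj S →
          (L.mistakes S : ℝ) ≤ (rDisj S : ℝ) ^ (1 - ε / 32) * mDisj S + (p.eval n : ℕ)) ∧
        ∀ α : ℝ, 1 / 2 < α → ∃ n₀ : ℕ, ∀ n : ℕ, n₀ ≤ n → ∀ S : Seq n,
          (L.mistakes S : ℝ) ≤ (n : ℝ) ^ α * mDisj S + (p.eval n : ℕ) := by
  have hK : 1 ≤ ⌈2 / ε⌉₊ := Nat.one_le_ceil_iff.2 (by positivity)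
  obtain ⟨σ, inst, L, hL, C, p, hC, h⟩ := tradeoff ⌈2 / ε⌉₊ hK
  have h4ε : 0 < 4 / ε := by positivity
  have hCC : 0 ≤ C * (1 + 4 / ε) := by positivity
  have hA : ∀ n : ℕ, 1 ≤ n → ∀ S : Seq n, (L.mistakes S : ℝ) ≤
      C * min (max 1 (rDisj S : ℝ)) (Real.sqrt n) * mDisj S + (p.eval n : ℕ) := by
    intro n hn S
    refine le_trans (h n hn S) ?_
    have h1 := min_le_left (min (max 1 (rDisj S : ℝ)) (Real.sqrt n))
      ((max 1 (rDisj S : ℝ) ^ ⌈2 / ε⌉₊ * (n : ℝ) ^ ((1 : ℝ) / ⌈2 / ε⌉₊) *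
        (1 + Real.log n)) ^ ((1 : ℝ) / (⌈2 / ε⌉₊ + 1)))
    have h2 := mul_le_mul_of_nonneg_right (mul_le_mul_of_nonneg_left h1 hC)
      (Nat.cast_nonneg (α := ℝ) (mDisj S))
    linarith
  have hB : ∀ n : ℕ, 1 ≤ n → ∀ S : Seq n, (n : ℝ) ^ ε ≤ rDisj S → (L.mistakes S : ℝ) ≤
      C * (1 + 4 / ε) * (rDisj S : ℝ) ^ (1 - ε / 16) * mDisj S + (p.eval n : ℕ) := by
    intro n hn S hr
    have hn0 : (1 : ℝ) ≤ n := by exact_mod_cast hn
    have hr1 : (1 : ℝ) ≤ rDisj S := le_trans (Real.one_le_rpow hn0 hε.le) hr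
    have hmax : max 1 (rDisj S : ℝ) = rDisj S := max_eq_right hr1
    have h0 := h n hn S
    rw [hmax] at h0
    have h1 := RDisj.FIN.Zq_bound hε hε1 ⌈2 / ε⌉₊ rfl n hn (rDisj S) hr1 hr
    unfold RDisj.FIN.Zq at h1
    refine le_trans h0 ?_
    have h2 := le_trans (min_le_right (min (rDisj S : ℝ) (Real.sqrt n))
      (((rDisj S : ℝ) ^ ⌈2 / ε⌉₊ * (n : ℝ) ^ ((1 : ℝ) / ⌈2 / ε⌉₊) *
        (1 + Real.log n)) ^ ((1 : ℝ) / (⌈2 / ε⌉₊ + 1)))) h1
    have h3 := mul_le_mul_of_nonneg_right (mul_le_mul_of_nonneg_left h2 hC)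
      (Nat.cast_nonneg (α := ℝ) (mDisj S))
    have h4 : C * ((1 + 4 / ε) * (rDisj S : ℝ) ^ (1 - ε / 16)) * mDisj S =
      C * (1 + 4 / ε) * (rDisj S : ℝ) ^ (1 - ε / 16) * mDisj S := by ring
    linarith
  refine ⟨σ, inst, L, hL, C * (1 + 4 / ε), p, ?_, hB, ?_, ?_⟩
  · intro n hn S
    refine le_trans (hA n hn S) ?_
    have h1 : 0 ≤ min (max 1 (rDisj S : ℝ)) (Real.sqrt n) :=
      le_min (le_trans zero_le_one (le_max_left _ _)) (Real.sqrt_nonneg _)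
    have h2 : C ≤ C * (1 + 4 / ε) := le_mul_of_one_le_right hC (by linarith)
    have h3 := mul_le_mul_of_nonneg_right (mul_le_mul_of_nonneg_right h2 h1)
      (Nat.cast_nonneg (α := ℝ) (mDisj S))
    linarith
  · obtain ⟨n₀, hn₀⟩ := big (C * (1 + 4 / ε)) (ε * (ε / 32)) hCC (by positivity)
    refine ⟨n₀, fun n hn S hr => ?_⟩
    obtain ⟨hn1, hbig⟩ := hn₀ n hn
    have hn0 : (1 : ℝ) ≤ n := by exact_mod_cast hn1
    have hr1 : (1 : ℝ) ≤ rDisj S := le_trans (Real.one_le_rpow hn0 hε.le) hr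
    refine le_trans (hB n hn1 S hr) ?_
    have h1 : C * (1 + 4 / ε) ≤ (rDisj S : ℝ) ^ (ε / 32) := by
      refine le_trans hbig ?_
      rw [Real.rpow_mul (by linarith)]
      exact Real.rpow_le_rpow (by positivity) hr (by positivity)
    have h2 : C * (1 + 4 / ε) * (rDisj S : ℝ) ^ (1 - ε / 16) ≤ (rDisj S : ℝ) ^ (1 - ε / 32) := by
      calc C * (1 + 4 / ε) * (rDisj S : ℝ) ^ (1 - ε / 16) ≤
          (rDisj S : ℝ) ^ (ε / 32) * (rDisj S : ℝ) ^ (1 - ε / 16) :=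
            mul_le_mul_of_nonneg_right h1 (by positivity)
        _ = (rDisj S : ℝ) ^ (1 - ε / 32) := by
            rw [← Real.rpow_add (by linarith)]
            congr 1
            ring
    have h3 := mul_le_mul_of_nonneg_right h2 (Nat.cast_nonneg (α := ℝ) (mDisj S))
    linarith
  · intro α hα
    obtain ⟨n₀, hn₀⟩ := big C (α - 1 / 2) hC (by linarith)
    refine ⟨n₀, fun n hn S => ?_⟩
    obtain ⟨hn1, hbig⟩ := hn₀ n hn
    have hn0 : (1 : ℝ) ≤ n := by exact_mod_cast hn1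
    refine le_trans (hA n hn1 S) ?_
    have h1 : C * min (max 1 (rDisj S : ℝ)) (Real.sqrt n) ≤ (n : ℝ) ^ α := by
      calc C * min (max 1 (rDisj S : ℝ)) (Real.sqrt n) ≤ (n : ℝ) ^ (α - 1 / 2) * Real.sqrt n := by
            apply mul_le_mul hbig (min_le_right _ _) _ (by positivity)
            exact le_min (le_trans zero_le_one (le_max_left _ _)) (Real.sqrt_nonneg _)
        _ = (n : ℝ) ^ α := by
            rw [Real.sqrt_eq_rpow, ← Real.rpow_add (by linarith)]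
            congr 1
            ring
    have h3 := mul_le_mul_of_nonneg_right h1 (Nat.cast_nonneg (α := ℝ) (mDisj S))
    linarith

/-- Write `m` for `m_disj(S)` and `r` for `max(1, r(S))`.

(1) For every `K ≥ 1` there are a polynomial-time online learner, a constant `C` and a polynomial
`p` such that on every labelled sequence `S` over `{0,1}^n`, `n ≥ 1`, the learner makes at most
`C min(r, √n, (r^K n^(1/K) (1 + log n))^(1/(K+1))) m + p(n)` mistakes.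

(2) For every `0 < ε ≤ 1` there are a polynomial-time online learner, a constant `C` and a
polynomial `p` such that the learner makes at most `C min(r, √n) m + p(n)` mistakes on every `S`,
and at most `C r(S)^(1 - ε/16) m + p(n)` mistakes if `r(S) ≥ n^ε`; for all large `n`, it makes at
most `r(S)^(1 - ε/32) m + p(n)` mistakes if `r(S) ≥ n^ε`, and, for every fixed `α > 1/2`, at most
`n^α m + p(n)` mistakes on every `S`. -/
theorem result :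
    (∀ K : ℕ, 1 ≤ K → ∃ (σ : Type) (_ : N487b59b3 σ) (L : Learner σ), L.PolyTime ∧
      ∃ (C : ℝ) (p : Polynomial ℕ), 0 ≤ C ∧ ∀ n : ℕ, 1 ≤ n → ∀ S : Seq n,
        (L.mistakes S : ℝ) ≤ C * min (min (max 1 (rDisj S : ℝ)) (Real.sqrt n))
          ((max 1 (rDisj S : ℝ) ^ K * (n : ℝ) ^ ((1 : ℝ) / K) * (1 + Real.log n)) ^
            ((1 : ℝ) / (K + 1))) * mDisj S + (p.eval n : ℕ)) ∧
    ∀ ε : ℝ, 0 < ε → ε ≤ 1 → ∃ (σ : Type) (_ : N487b59b3 σ) (L : Learner σ), L.PolyTime ∧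
      ∃ (C : ℝ) (p : Polynomial ℕ),
        (∀ n : ℕ, 1 ≤ n → ∀ S : Seq n, (L.mistakes S : ℝ) ≤
          C * min (max 1 (rDisj S : ℝ)) (Real.sqrt n) * mDisj S + (p.eval n : ℕ)) ∧
        (∀ n : ℕ, 1 ≤ n → ∀ S : Seq n, (n : ℝ) ^ ε ≤ rDisj S →
          (L.mistakes S : ℝ) ≤ C * (rDisj S : ℝ) ^ (1 - ε / 16) * mDisj S + (p.eval n : ℕ)) ∧
        (∃ n₀ : ℕ, ∀ n : ℕ, n₀ ≤ n → ∀ S : Seq n, (n : ℝ) ^ ε ≤ rDisj S →
          (L.mistakes S : ℝ) ≤ (rDisj S : ℝ) ^ (1 - ε / 32) * mDisj S + (p.eval n : ℕ)) ∧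
        ∀ α : ℝ, 1 / 2 < α → ∃ n₀ : ℕ, ∀ n : ℕ, n₀ ≤ n → ∀ S : Seq n,
          (L.mistakes S : ℝ) ≤ (n : ℝ) ^ α * mDisj S + (p.eval n : ℕ) :=
  ⟨tradeoff, power⟩

end Pool.Agent.Results.MP_eeb244_lc.RatioPower
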